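import Pool.Agent.Helper14.CV.StA

/-! # Project CV (MP_3c9520_nt): module A6b, uniform limit at the cusps -/

set_option autoImplicit false

open UpperHalfPlane CongruenceSubgroup Filter Topology
open scoped MatrixGroups ModularForm

namespace Pool.Agent.Helper79.CV

open Pool.Agent.Helper14.CV

open ConjAct Pointwise Matrix.SpecialLinearGroup in
/-- exponential decay of the slashed form -/
private theorem decay (N : ℕ) [NeZero N] (f : CuspForm (G0 N) 2) (γ : SL(2, ℤ)) :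
    ∃ c > 0, ∃ C A : ℝ, ∀ τ : ℍ, A ≤ τ.im →
      ‖(⇑f ∣[(2 : ℤ)] γ) τ‖ ≤ C * Real.exp (-c * τ.im) := by
  have : ((toConjAct (γ : GL (Fin 2) ℝ)⁻¹) • G0 N).IsArithmetic := by
    simpa [(show Rat.castHom ℝ = algebraMap ℚ ℝ by rfl), map_inv, map_mapGL]
      using! Subgroup.IsArithmetic.conj (G0 N) (mapGL ℚ γ)⁻¹
  obtain ⟨c, hc, h⟩ := CuspFormClass.exp_decay_atImInfty' (CuspForm.translate f (γ : SL(2, ℤ)))
  obtain ⟨C, hC⟩ := h.bound
  obtain ⟨A, hA⟩ := (UpperHalfPlane.atImInfty_mem _).1 hC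
  refine ⟨c, hc, C, A, fun τ hτ => ?_⟩
  have h1 := hA τ hτ
  simp only [Set.mem_ofPred_eq, Real.norm_eq_abs, Real.abs_exp] at h1
  exact h1

/-- the vertical line -/
private theorem moeb (N : ℕ) [NeZero N] (h1 : StA1) (f : CuspForm (G0 N) 2) (γ : SL(2, ℤ))
    (τ : ℍ) : HasDerivAt (fun w : ℂ => Fp f (((γ 0 0 : ℤ) * w + (γ 0 1 : ℤ)) /
      ((γ 1 0 : ℤ) * w + (γ 1 1 : ℤ)))) (2 * Real.pi * Complex.I * (⇑f ∣[(2 : ℤ)] γ) τ)
      (τ : ℂ) := by
  have hdet : ((γ 0 0 : ℤ) : ℂ) * (γ 1 1 : ℤ) - ((γ 0 1 : ℤ) : ℂ) * (γ 1 0 : ℤ) = 1 := by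
    have h := γ.det_coe
    rw [Matrix.det_fin_two] at h
    exact_mod_cast h
  have hden : ((γ 1 0 : ℤ) : ℂ) * τ + (γ 1 1 : ℤ) ≠ 0 := by
    have := UpperHalfPlane.denom_ne_zero (γ : SL(2, ℤ)) τ
    rw [ModularGroup.denom_apply] at this
    exact this
  have hcoe : ((γ • τ : ℍ) : ℂ) = (((γ 0 0 : ℤ) : ℂ) * τ + (γ 0 1 : ℤ)) /
      (((γ 1 0 : ℤ) : ℂ) * τ + (γ 1 1 : ℤ)) := by
    rw [UpperHalfPlane.coe_specialLinearGroup_apply]
    simp
  have hF := (h1 N inferInstance f ((γ • τ : ℍ) : ℂ) (γ • τ).im_pos).2.2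
  have hfz : fz f ((γ • τ : ℍ) : ℂ) = f (γ • τ) := by
    unfold fz
    rw [UpperHalfPlane.ofComplex_apply]
  rw [hfz, hcoe] at hF
  have hm : HasDerivAt (fun w : ℂ => (((γ 0 0 : ℤ) : ℂ) * w + (γ 0 1 : ℤ)) /
      (((γ 1 0 : ℤ) : ℂ) * w + (γ 1 1 : ℤ)))
      ((((γ 0 0 : ℤ) : ℂ) * (((γ 1 0 : ℤ) : ℂ) * τ + (γ 1 1 : ℤ)) -
        (((γ 0 0 : ℤ) : ℂ) * τ + (γ 0 1 : ℤ)) * ((γ 1 0 : ℤ) : ℂ)) /
        (((γ 1 0 : ℤ) : ℂ) * τ + (γ 1 1 : ℤ)) ^ 2) (τ : ℂ) := by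
    have e1 : HasDerivAt (fun w : ℂ => ((γ 0 0 : ℤ) : ℂ) * w + (γ 0 1 : ℤ)) ((γ 0 0 : ℤ) : ℂ)
        (τ : ℂ) := by
      simpa using ((hasDerivAt_id (τ : ℂ)).const_mul ((γ 0 0 : ℤ) : ℂ)).add_const ((γ 0 1 : ℤ) : ℂ)
    have e2 : HasDerivAt (fun w : ℂ => ((γ 1 0 : ℤ) : ℂ) * w + (γ 1 1 : ℤ)) ((γ 1 0 : ℤ) : ℂ)
        (τ : ℂ) := by
      simpa using ((hasDerivAt_id (τ : ℂ)).const_mul ((γ 1 0 : ℤ) : ℂ)).add_const ((γ 1 1 : ℤ) : ℂ)
    exact e1.div e2 hden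
  have h2 := HasDerivAt.comp (τ : ℂ) hF hm
  have h3 : ((γ 0 0 : ℤ) : ℂ) * (((γ 1 0 : ℤ) : ℂ) * τ + (γ 1 1 : ℤ)) -
      (((γ 0 0 : ℤ) : ℂ) * τ + (γ 0 1 : ℤ)) * ((γ 1 0 : ℤ) : ℂ) = 1 := by
    rw [← hdet]
    ring
  have h4 : (((γ 1 0 : ℤ) : ℂ) * τ + ((γ 1 1 : ℤ) : ℂ)) ^ (-(2 : ℤ)) =
      1 / (((γ 1 0 : ℤ) : ℂ) * τ + (γ 1 1 : ℤ)) ^ 2 := by
    rw [zpow_neg, one_div]
    rfl
  rw [h3, ← h4] at h2
  have h5 : (⇑f ∣[(2 : ℤ)] γ) τ = f (γ • τ) *
      (((γ 1 0 : ℤ) : ℂ) * τ + ((γ 1 1 : ℤ) : ℂ)) ^ (-(2 : ℤ)) := by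
    rw [ModularForm.SL_slash_apply, ModularGroup.denom_apply]
  rw [h5, ← mul_assoc]
  exact h2

theorem hA6b (h1 : StA1) : StA6b := by
  intro N _ f G hG γ
  obtain ⟨c, hc, C, A, hdec⟩ := decay N f γ
  have hdetZ : (0 : ℤ) < γ 0 0 * γ 1 1 - γ 0 1 * γ 1 0 := by
    have h := γ.det_coe
    rw [Matrix.det_fin_two] at h
    rw [h]
    exact one_pos
  set H : ℂ → ℂ := fun w : ℂ => Fp f (((γ 0 0 : ℤ) * w + (γ 0 1 : ℤ)) /
      ((γ 1 0 : ℤ) * w + (γ 1 1 : ℤ))) with hH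
  -- the estimate
  have key : ∀ τ : ℍ, A ≤ τ.im → ‖Fp f ((γ • τ : ℍ) : ℂ) - G (γ 0 0) (γ 1 0)‖ ≤
      2 * Real.pi * C / c * Real.exp (-c * τ.im) := by
    intro τ hτ
    have hcoe : ((γ • τ : ℍ) : ℂ) = (((γ 0 0 : ℤ) : ℂ) * τ + (γ 0 1 : ℤ)) /
        (((γ 1 0 : ℤ) : ℂ) * τ + (γ 1 1 : ℤ)) := by
      rw [UpperHalfPlane.coe_specialLinearGroup_apply]
      simp
    have hC0 : 0 ≤ C := by
      have := (norm_nonneg _).trans (hdec τ hτ)
      exact nonneg_of_mul_nonneg_left this (Real.exp_pos _)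
    have hτ0 := τ.im_pos
    -- the points of the vertical line
    have hpt : ∀ t : ℝ, τ.im ≤ t → 0 < ((τ.re : ℂ) + t * Complex.I).im := by
      intro t ht
      simp
      linarith
    have hder : ∀ t : ℝ, τ.im ≤ t → ∃ F' : ℂ, ‖F'‖ ≤ 2 * Real.pi * C * Real.exp (-c * t) ∧
        HasDerivAt (fun s : ℝ => H ((τ.re : ℂ) + s * Complex.I)) F' t := by
      intro t ht
      let σ : ℍ := ⟨(τ.re : ℂ) + t * Complex.I, hpt t ht⟩
      have h2 := moeb N h1 f γ σ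
      have hline : HasDerivAt (fun s : ℝ => (τ.re : ℂ) + (s : ℂ) * Complex.I) (1 * Complex.I) t :=
        ((Complex.ofRealCLM.hasDerivAt (x := t)).mul_const Complex.I).const_add _
      have h3 := HasDerivAt.comp t (h₂ := H) h2 hline
      refine ⟨_, ?_, h3⟩
      have him : σ.im = t := by
        show ((τ.re : ℂ) + t * Complex.I).im = t
        simp
      have h4 := hdec σ (by rw [him]; linarith)
      rw [him] at h4
      rw [norm_mul, norm_mul, norm_mul, norm_mul, one_mul, Complex.norm_I, mul_one, mul_one,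
        Complex.norm_ofNat, Complex.norm_real, Real.norm_of_nonneg Real.pi_pos.le]
      calc 2 * Real.pi * ‖(⇑f ∣[(2 : ℤ)] γ) σ‖ ≤ 2 * Real.pi * (C * Real.exp (-c * t)) := by
            gcongr
        _ = 2 * Real.pi * C * Real.exp (-c * t) := by ring
    choose! F' hF1 hF2 using hder
    have hbd : ∀ T : ℝ, τ.im ≤ T → ‖H ((τ.re : ℂ) + T * Complex.I) - H (τ : ℂ)‖ ≤
        2 * Real.pi * C / c * Real.exp (-c * τ.im) := by
      intro T hT
      have hτe : (τ : ℂ) = (τ.re : ℂ) + (τ.im : ℂ) * Complex.I := by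
        rw [← UpperHalfPlane.coe_re, ← UpperHalfPlane.coe_im]
        exact (Complex.re_add_im _).symm
      have h5 := image_norm_le_of_norm_deriv_right_le_deriv_boundary'
        (f := fun s : ℝ => H ((τ.re : ℂ) + s * Complex.I) - H (τ : ℂ)) (f' := F')
        (a := τ.im) (b := T)
        (B := fun s => 2 * Real.pi * C / c * (Real.exp (-c * τ.im) - Real.exp (-c * s)))
        (B' := fun s => 2 * Real.pi * C * Real.exp (-c * s))
        (fun s hs => ((hF2 s hs.1).sub_const _).continuousAt.continuousWithinAt)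
        (fun s hs => ((hF2 s hs.1).sub_const _).hasDerivWithinAt)
        (by
          show ‖H ((τ.re : ℂ) + (τ.im : ℂ) * Complex.I) - H (τ : ℂ)‖ ≤ _
          rw [← hτe, sub_self, norm_zero, sub_self, mul_zero])
        (by fun_prop)
        (fun s hs => by
          have e1 : HasDerivAt (fun s : ℝ => -c * s) (-c) s := by
            simpa using (hasDerivAt_id s).const_mul (-c)
          have e2 := (((e1.exp).const_sub (Real.exp (-c * τ.im))).const_mul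
            (2 * Real.pi * C / c))
          have e3 : 2 * Real.pi * C / c * -(Real.exp (-c * s) * -c) =
              2 * Real.pi * C * Real.exp (-c * s) := by
            field_simp
          rw [e3] at e2
          exact e2.hasDerivWithinAt)
        (fun s hs => hF1 s hs.1) (Set.right_mem_Icc.2 hT)
      refine h5.trans ?_
      have h6 : 0 ≤ 2 * Real.pi * C / c := by positivity
      have h7 := (Real.exp_pos (-c * T)).le
      exact mul_le_mul_of_nonneg_left (by linarith) h6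
    have hlim : Tendsto (fun T : ℝ => ‖H ((τ.re : ℂ) + T * Complex.I) - H (τ : ℂ)‖) atTop
        (𝓝 ‖G (γ 0 0) (γ 1 0) - H (τ : ℂ)‖) :=
      ((hG (γ 0 0) (γ 0 1) (γ 1 0) (γ 1 1) hdetZ τ.re).sub_const _).norm
    have h8 := le_of_tendsto hlim (eventually_atTop.2 ⟨τ.im, hbd⟩)
    rw [hcoe, norm_sub_rev]
    exact h8
  rw [tendsto_iff_norm_sub_tendsto_zero]
  have hexp : Tendsto (fun τ : ℍ => 2 * Real.pi * C / c * Real.exp (-c * τ.im)) atImInfty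
      (𝓝 0) := by
    have e1 : Tendsto (fun τ : ℍ => τ.im) atImInfty atTop := tendsto_comap
    have e2 : Tendsto (fun y : ℝ => Real.exp (-c * y)) atTop (𝓝 0) :=
      Real.tendsto_exp_atBot.comp (tendsto_id.const_mul_atTop_of_neg (by linarith))
    simpa using (e2.comp e1).const_mul (2 * Real.pi * C / c)
  refine tendsto_of_tendsto_of_tendsto_of_le_of_le' tendsto_const_nhds hexp
    (Eventually.of_forall fun _ => norm_nonneg _) ?_
  exact (UpperHalfPlane.atImInfty_mem _).2 ⟨A, fun τ hτ => key τ hτ⟩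

end Pool.Agent.Helper79.CV
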